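import Pool.Agent.H57.LH.Targets2

/-!
Board lh_modules, row LCN: local completions for families of labelled sets (after H56/KR/LCS).
-/

set_option autoImplicit false

namespace Pool.Agent.H34.LH

open Pool.Agent.H68.BP Pool.Agent.H58.SF Pool.Agent.H53.GC Pool.Agent.H53.NR
open Pool.Agent.H53.GR (Dm Ps)
open Pool.Agent.H57.AR (tp ty tpo pullO Ty OT HomEq El ElD FamR Od GmR INJ lft)
open Pool.Agent.H57.SO (Pal Col vt Bh Sbn fib sigF)
open Pool.Agent.H57.EQ (Cx T_CYF)
open Pool.Agent.H57.LCI (LocalCompletions Pre Realizes)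
open Pool.Agent.H44.KR (HB Amg Tyi Rz Rlz Clp LInj Prm TpOn RmL LcN Pl lr blk Fv kv RkI Kd JJ Yc IsTh Can Plf Pls)
open Pool.Agent.H57.LH Function
open Classical

theorem pf_LCN : T_LCN := by
  intro V ρ 𝔹 hne hL
  obtain ⟨M, hM⟩ := hL (max 2 ρ.width)
  refine ⟨M, fun W Λ _ s S hU => ?_⟩
  set n := Nat.card W with hn
  set e : Fin n ≃ W := (Finite.equivFin W).symm with he
  set P : Set (Pre ρ (Fin n)) := {p | p.1 ≤ max 2 ρ.width ∧ Injective p.2.1 ∧
    ∃ a, (∀ i, e (p.2.1 i) ∈ s a) ∧ p.2.2 = pull (S a) (fun i => e (p.2.1 i))} with hP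
  obtain ⟨f, hf⟩ := hM n P (fun p hp => hp.1) (by
    intro U hUc
    obtain ⟨f, hf⟩ := hU (U.map e.toEmbedding) (by rw [Finset.card_map]; exact hUc)
    refine ⟨fun x => f (e x), ?_⟩
    rintro ⟨k, t, T⟩ ⟨-, ht, a, hta, hT⟩ htU
    obtain ⟨h1, h2⟩ := hf a
    have hmem : ∀ i, e (t i) ∈ {x | x ∈ s a ∧ x ∈ U.map e.toEmbedding} := fun i =>
      ⟨hta i, Finset.mem_map_of_mem _ (htU i)⟩
    refine ⟨fun i j hij => ?_, fun l z => ?_⟩
    · exact ht (e.injective (h1 _ (hmem i) _ (hmem j) hij))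
    · have h3 := h2 l (fun i => e (t (z i))) (fun i => hmem (z i))
      change T l z ↔ 𝔹 l (fun i => f (e (t (z i))))
      rw [h3, show T = pull (S a) (fun i => e (t i)) from hT]
      rfl)
  refine ⟨fun x => f (e.symm x), fun a => ⟨fun x hx y hy hxy => ?_, fun l z hz => ?_⟩⟩
  · by_contra hne
    have hne' : e.symm x ≠ e.symm y := fun h => hne (e.symm.injective h)
    have h1 := hf ⟨2, ![e.symm x, e.symm y], pull (S a) fun i => e (![e.symm x, e.symm y] i)⟩
      ⟨le_max_left _ _, ?_, a, ?_, rfl⟩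
    · have h2 : (0 : Fin 2) = 1 := h1.1 (a₁ := (0 : Fin 2)) (a₂ := (1 : Fin 2)) hxy
      exact Fin.zero_ne_one h2
    · intro i j hij
      fin_cases i <;> fin_cases j
      · rfl
      · exact absurd hij hne'
      · exact absurd hij.symm hne'
      · rfl
    · intro i
      fin_cases i
      · change e (e.symm x) ∈ s a
        rw [e.apply_symm_apply]
        exact hx
      · change e (e.symm y) ∈ s a
        rw [e.apply_symm_apply]
        exact hy
  · set Z : Finset (Fin n) := Finset.univ.image fun i => e.symm (z i) with hZ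
    have hc : Z.card ≤ max 2 ρ.width := by
      refine le_trans Finset.card_image_le ?_
      rw [Finset.card_univ, Fintype.card_fin]
      exact le_trans (Finset.le_sup (f := ρ.ar) (Finset.mem_univ l)) (le_max_right _ _)
    have g := Z.equivFin.symm
    have hmem : ∀ i, e.symm (z i) ∈ Z := fun i => Finset.mem_image_of_mem _ (Finset.mem_univ i)
    have h1 := (hf ⟨Z.card, fun i => (g i : Fin n), pull (S a) fun i => e (g i : Fin n)⟩
      ⟨hc, fun i j h => g.injective (Subtype.ext h), a, fun i => by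
        obtain ⟨j, -, hj⟩ := Finset.mem_image.1 (g i).2
        change e ((g i : Z) : Fin n) ∈ s a
        rw [← hj, e.apply_symm_apply]
        exact hz j, rfl⟩).2 l (fun i => g.symm ⟨e.symm (z i), hmem i⟩)
    have h3 : (S a l (fun i => e ((g (g.symm ⟨e.symm (z i), hmem i⟩) : Z) : Fin n))) ↔
        𝔹 l (fun i => f ((g (g.symm ⟨e.symm (z i), hmem i⟩) : Z) : Fin n)) := h1
    have h4 : (fun i => e ((g (g.symm ⟨e.symm (z i), hmem i⟩) : Z) : Fin n)) = z := by
      funext i
      rw [Equiv.apply_symm_apply]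
      exact e.apply_symm_apply (z i)
    have h5 : (fun i => f ((g (g.symm ⟨e.symm (z i), hmem i⟩) : Z) : Fin n)) =
        fun i => f (e.symm (z i)) := by
      funext i
      rw [Equiv.apply_symm_apply]
    rw [h4, h5] at h3
    exact h3.symm

end Pool.Agent.H34.LH
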